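import Pool.Agent.Seat73.CoreS.Cont

/-!
# The core of a domain depends on the smoothness class

From `Pool/Agent/Seat73/CoreS/Defs.lean`: `Cn n` is `ℂⁿ` with the euclidean norm; `IsPSH U φ`: the
function `φ` is continuous and plurisubharmonic on `U`; `IsStrictlyPSHAt φ z`: it is strictly
plurisubharmonic at `z`; `core s Ω` is the `C^s`-core `𝔠^s(Ω)`, `s = 0, 1, 2, ..., ∞`.

For `n = 2` the domain is `{|t| < 2, |w| < 1} ∪ (V × ℂ) ∪ {|w - 3| < 1}`, where `V` is a union of very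
small discs around points outside the closed unit disc which accumulate at every point of the unit
circle; the origin belongs to `𝔠^s(Ω)` for all `s ≥ 1`, but not to `𝔠^0(Ω)`.
-/

set_option autoImplicit false

namespace Pool.Agent.Results.MP_63d28d_an.ContinuousCoreDiffers

open Pool.Agent.Seat73.CoreS

/-- In every dimension `n ≥ 2` there is a domain `Ω` such that `𝔠^0(Ω) ≠ 𝔠^s(Ω)` for all
`s = 1, 2, ..., ∞`; a point of `Ω` belongs to all the cores `𝔠^s(Ω)`, `s ≥ 1`, but not to `𝔠^0(Ω)`. -/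
theorem result (n : ℕ) (hn : 2 ≤ n) :
    ∃ Ω : Set (Cn n), IsOpen Ω ∧ IsConnected Ω ∧
      (∃ z ∈ Ω, z ∉ core 0 Ω ∧ ∀ s : ℕ∞, 1 ≤ s → z ∈ core s Ω) ∧
      ∀ s : ℕ∞, 1 ≤ s → core 0 Ω ≠ core s Ω := by
  obtain ⟨m, rfl⟩ := Nat.exists_eq_add_of_le' hn
  exact ⟨Om m, isOpen_Om, isConnected_Om,
    ⟨0, (zero_mem_core (m := m) (le_refl 1)).1, zero_notMem_core, fun s hs => zero_mem_core hs⟩,
    fun s hs => main m hs⟩

end Pool.Agent.Results.MP_63d28d_an.ContinuousCoreDiffers
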